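import Pool.Agent.Q234.StR
import Pool.Agent.Y886.EPB

/-!
# Every large `n`: `p_k + 2` with at most two prime factors and `p_{p_m} + h` prime, `n = k + m`, for almost all `h`

Q1 asks for every `n > 2` for a representation `n = k + m` such that `p_k + 2` and `p_{p_m} + 2` are primes. Here the
first condition is kept with its shift `2`, in the form of Chen's theorem: `p_k + 2` is a prime or a product of two
primes (all of them larger than the ninth root of `p_k`). In the second condition the shift `2` is replaced by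
almost all multiples `h` of a small primorial `M`, the product of the primes up to `y`, where `y` is of the
order of magnitude `log log n`, so that `M` is a power of `log n`, and `p_{p_m} + h` is a prime.

This holds for EVERY large `n`, for the expected number of the elements `k` of ANY set `K` of at least `n / log ^ A n`
integers `0 < k < n` with the first property, for instance of the set of all of them (part (2)).
-/

set_option autoImplicit false

open Finset

namespace Pool.Agent.Results.MP_04e9b2_nt.ChenFirstSummand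

/-- The `k`-th prime: `p 1 = 2`, `p 2 = 3`. -/
noncomputable def p (k : ℕ) : ℕ := Nat.nth Nat.Prime (k - 1)

/-- The product of `1 - 1/q` over the primes `q ≤ y`. -/
noncomputable def V (y : ℕ) : ℝ := ∏ q ∈ (Icc 1 y).filter Nat.Prime, (1 - 1 / (q : ℝ))

/-- `q` is a prime, and `q + 2` is a prime or a product of two primes, each of which, `l` say, has `l ^ 9 > q`. -/
def Chen (q : ℕ) : Prop :=
  q.Prime ∧ (q + 2).primeFactorsList.length ≤ 2 ∧ ∀ l : ℕ, l.Prime → l ∣ q + 2 → q < l ^ 9

open Classical in
/-- The `k ∈ K` such that with `m = n - k` the number `p_{p_m} + h` is prime. -/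
noncomputable def good (n : ℕ) (K : Finset ℕ) (h : ℕ) : Finset ℕ :=
  K.filter (fun k => (p (p (n - k)) + h).Prime)

open Classical in
/-- The `k` with `0 < k < n` for which `p_k` is a Chen prime. -/
noncomputable def chen (n : ℕ) : Finset ℕ := (Ioo 0 n).filter (fun k => Chen (p k))

theorem nth_inj : Function.Injective (Nat.nth Nat.Prime) := Nat.nth_injective Nat.infinite_setOfPred_prime

/-- (1) For all `A`, `C` and `0 < ε ≤ 1` there is `K₀` such that for every `K₁` and every large `n`, every `y`
between `K₀ log log n` and `K₁ log log n`, with `M` the product of the primes `≤ y`, and every window `(g₀, g₀ + G]`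
with `M (g₀ + G) ≤ n`, `G ≥ n / (M log ^ C n)`: for every set `K` of at least `n / log ^ A n` integers `0 < k < n` such
that `p_k` is a Chen prime, for all but at most `ε G` of the `g ≤ G` the number `p_{p_m} + M (g₀ + g)`, `m = n - k`, is
prime for at least `(1 - ε) #K / (V y log n)` elements `k` of `K`. (2) For every large `n` there are at least
`n / log ^ 4 n` integers `0 < k < n` for which `p_k` is a Chen prime. -/
theorem result : (∀ (A C : ℕ) (ε : ℝ), 0 < ε → ε ≤ 1 → ∃ K₀ : ℕ, ∀ K₁ : ℕ, ∃ n₀ : ℕ, ∀ n : ℕ, n₀ ≤ n →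
    ∀ y : ℕ, K₀ * Real.log (Real.log n) ≤ y → y ≤ K₁ * Real.log (Real.log n) →
    ∀ g₀ G : ℕ, primorial y * (g₀ + G) ≤ n → (n : ℝ) ≤ primorial y * G * Real.log n ^ C →
    ∀ K : Finset ℕ, K ⊆ Ioo 0 n → (∀ k ∈ K, Chen (p k)) → (n : ℝ) ≤ K.card * Real.log n ^ A →
      (((Icc 1 G).filter (fun g => ((good n K (primorial y * (g₀ + g))).card : ℝ) <
        (1 - ε) * (K.card / (V y * Real.log n)))).card : ℝ) ≤ ε * G) ∧
    (∃ n₀ : ℕ, ∀ n : ℕ, n₀ ≤ n → (n : ℝ) ≤ (chen n).card * Real.log n ^ 4) := by
  classical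
  constructor
  · intro A C ε hε hε1
    obtain ⟨K₀', hK₀'⟩ := Pool.Agent.Q234.StR.stepR 5 C 1 (fun _ => 1) (fun _ => Or.inl rfl) A ε hε hε1
    refine ⟨K₀', fun K₁ => ?_⟩
    obtain ⟨n2', hn2'⟩ := hK₀' K₁
    obtain ⟨n5, hn5⟩ := Pool.Agent.Y877.SX.nth_nth_le_log
    refine ⟨max n2' n5, fun n hn y hy1 hy2 g₀ G hg1 hg2 K hK hKc hKA => ?_⟩
    have b2' : n2' ≤ n := le_trans (le_max_left _ _) hn
    have b5 : n5 ≤ n := le_trans (le_max_right _ _) hn
    have h1 := hn2' n b2' y hy1 hy2 K hKA (fun _ k => p (p (n - k))) (fun _ => by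
      intro a ha b hb hab
      have ha' := mem_Ioo.1 (hK (mem_coe.1 ha))
      have hb' := mem_Ioo.1 (hK (mem_coe.1 hb))
      have h1 := nth_inj hab
      have h2 : 2 ≤ p (n - a) := (Nat.prime_nth_prime _).two_le
      have h3 : 2 ≤ p (n - b) := (Nat.prime_nth_prime _).two_le
      have h4 : p (n - a) = p (n - b) := by omega
      have h5 := nth_inj h4
      omega) (fun _ k hk => ⟨Nat.prime_nth_prime _, hn5 n b5 (n - k - 1) (by
        have := mem_Ioo.1 (hK hk)
        omega)⟩) (fun _ => g₀) (fun _ => G) (fun _ => by rw [pow_one]; exact hg1) (fun _ => by rw [pow_one]; exact hg2)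
    rw [Fin.prod_univ_one, Fin.prod_univ_one] at h1
    refine le_trans ?_ h1
    apply Nat.cast_le.2
    apply card_le_card_of_injOn (fun g => (fun _ : Fin 1 => g))
    · intro g hg
      rw [mem_coe, mem_filter] at hg
      rw [mem_coe, mem_filter, Fintype.mem_piFinset]
      refine ⟨fun _ => hg.1, ?_⟩
      have e1 : K.filter (fun j => ∀ _i : Fin 1, (p (p (n - j)) ^ 1 + primorial y * (g₀ + g)).Prime) =
          good n K (primorial y * (g₀ + g)) := by
        unfold good
        apply filter_congr
        intro k _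
        rw [Fin.forall_fin_one, pow_one]
      have e2 : Pool.Agent.H373R2.T7.Vz y * (((1 : ℕ) : ℝ) * Real.log n) = V y * Real.log n := by
        have : V y = Pool.Agent.H373R2.T7.Vz y := rfl
        rw [this, Nat.cast_one, one_mul]
      rw [e1, e2]
      exact hg.2
    · intro g _ g' _ h
      exact congrFun h 0
  · obtain ⟨y0, hy0⟩ := Pool.Agent.Y886.EP.density
    obtain ⟨n1, hn1⟩ := Pool.Agent.H373R2.T7.ev_L' 2
    refine ⟨max (y0 + 1) (max n1 3), fun n hn => ?_⟩
    have b1 : y0 + 1 ≤ n := (le_max_left _ _).trans hn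
    have b2 : n1 ≤ n := le_trans (le_trans (le_max_left _ _) (le_max_right _ _)) hn
    have b3 : 3 ≤ n := le_trans (le_trans (le_max_right _ _) (le_max_right _ _)) hn
    have hL := hn1 n b2
    obtain ⟨S, hS1, hS2, hS3⟩ := hy0 (n - 1) (by omega)
    have hsub : S ⊆ chen n := by
      intro k hk
      have hk1 := mem_Icc.1 (hS1 hk)
      unfold chen
      rw [mem_filter, mem_Ioo]
      exact ⟨⟨by omega, by omega⟩, hS2 k hk⟩
    have hc : (S.card : ℝ) ≤ (chen n).card := by exact_mod_cast card_le_card hsub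
    have hn3 : (3 : ℝ) ≤ n := by exact_mod_cast b3
    have hcast : ((n - 1 : ℕ) : ℝ) = n - 1 := by
      rw [Nat.cast_sub (by omega), Nat.cast_one]
    rw [hcast] at hS3
    have hlog : Real.log ((n : ℝ) - 1) ≤ Real.log n := Real.log_le_log (by linarith) (by linarith)
    have hlog0 : 0 ≤ Real.log ((n : ℝ) - 1) := Real.log_nonneg (by linarith)
    have h3 : Real.log ((n : ℝ) - 1) ^ 3 ≤ Real.log n ^ 3 := pow_le_pow_left₀ hlog0 hlog 3
    have hS0 : (0 : ℝ) ≤ S.card := Nat.cast_nonneg _
    have h4 : (n : ℝ) - 1 ≤ (chen n).card * Real.log n ^ 3 := by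
      calc (n : ℝ) - 1 ≤ S.card * Real.log ((n : ℝ) - 1) ^ 3 := hS3
        _ ≤ (chen n).card * Real.log n ^ 3 := mul_le_mul hc h3 (by positivity) (hS0.trans hc)
    calc (n : ℝ) ≤ 2 * ((n : ℝ) - 1) := by linarith
      _ ≤ Real.log n * ((n : ℝ) - 1) := mul_le_mul_of_nonneg_right hL (by linarith)
      _ ≤ Real.log n * ((chen n).card * Real.log n ^ 3) := mul_le_mul_of_nonneg_left h4 (by linarith)
      _ = _ := by ring

end Pool.Agent.Results.MP_04e9b2_nt.ChenFirstSummand
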