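import Pool.Agent.Q26.IX.It

/-!
# Twin prime indices and prime-indexed twin prime indices: the shifts `2`, corrected by very few elements of arbitrary sets

In the question one looks for `n = k + m` with `p_k + 2` and `p_{p_m} + 2` prime. Here the shifts are ARBITRARY integers `h 0`, `h 1`
(for example `2`, `2`), to which very few elements of arbitrary sets `T 0`, `T 1` are added; the same corrections serve all
integers `n` of an arbitrary set of at most `log ^ D X` elements, arbitrary sets `K n` of summands, and all shifts in windows.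
-/

set_option autoImplicit false

namespace Pool.Agent.Results.MP_04e9b2_nt.CorrectedShifts

open Finset

/-- `p k` is the `k`-th prime, `p 1 = 2`. -/
noncomputable def p (k : ℕ) : ℕ := Nat.nth Nat.Prime (k - 1)

open Classical in
/-- The number of the `k` in `K` for which `p_k + h 0` and `p_{p_{n - k}} + h 1` are both prime. -/
noncomputable def primes (n : ℕ) (K : Finset ℕ) (h : Fin 2 → ℤ) : ℕ :=
  (K.filter fun k => (∃ q : ℕ, q.Prime ∧ (q : ℤ) = p k + h 0) ∧ ∃ q : ℕ, q.Prime ∧ (q : ℤ) = p (p (n - k)) + h 1).card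

/-- The integer `x` is positive and has no prime factor up to `z`. -/
def Rough (z : ℕ) (x : ℤ) : Prop := 1 ≤ x ∧ ∀ q : ℕ, q.Prime → q ≤ z → ¬ (q : ℤ) ∣ x

open Classical in
/-- The number of the `k` in `K` for which `p_k + h 0` and `p_{p_{n - k}} + h 1` are both positive without prime factor up to
`z`. -/
noncomputable def rough (n : ℕ) (K : Finset ℕ) (z : ℕ) (h : Fin 2 → ℤ) : ℕ :=
  (K.filter fun k => Rough z (p k + h 0) ∧ Rough z (p (p (n - k)) + h 1)).card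

/-- `V(z) = ∏_{q ≤ z} (1 - 1 / q)`, `q` prime -/
noncomputable def V (z : ℕ) : ℝ := ∏ q ∈ (Icc 1 z).filter Nat.Prime, (1 - 1 / (q : ℝ))

/-- The number of the `k` in `K` with two primes is `T = rough / (V(z) log X) ^ 2` up to `ε T + X / log ^ A X`. -/
def Formula (ε : ℝ) (A X n z : ℕ) (K : Finset ℕ) (h : Fin 2 → ℤ) : Prop :=
  |(primes n K h : ℝ) - rough n K z h / (V z * Real.log X) ^ 2| ≤
    ε * (rough n K z h / (V z * Real.log X) ^ 2) + X / Real.log X ^ A

/-- **Both conditions, with the shifts corrected by very few elements of arbitrary sets.** Let `l ≥ 2`, `P ≥ 1`, `R`, `A` and `D` be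
given. There is `C` such that for all `H`, `B` there is `B₀` such that for all `E` and `ε > 0` there is `X₀` with the following
property. Let `T 0`, `T 1` be ARBITRARY sets of integers, each of which contains an element of every interval `[x, l x]` with
`x ≥ 1`. Let `X ≥ X₀`, `log ^ B₀ X ≤ z ≤ log ^ E X`, let `h 0`, `h 1` be ARBITRARY integers with `|h i| ≤ B X`, let `𝒩` be an
ARBITRARY set of at most `log ^ D X` integers `n` with `p_{p_n} ≤ X`, and for every `n` in `𝒩` let `K n` be an ARBITRARY set of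
integers `0 < k < n`. There are sets `S i` of at most `C (log log X) ^ 2` elements of `T i`, all between `log ^ H X` and
`X / log ^ H X`, whose sums are divisible by `P`, such that for all `n` in `𝒩` ALL integers `h' 0`, `h' 1` with
`|h' i - (h i + ∑_{x ∈ S i} x)| ≤ log ^ R X` satisfy the formula for the number of the `k` in `K n` such that
`p_k + h' 0` and `p_{p_m} + h' 1` are prime, `m = n - k`. -/
theorem result (l P R A D : ℕ) (hl : 2 ≤ l) (hP : 1 ≤ P) : ∃ C : ℝ, ∀ H B : ℕ, ∃ B₀ : ℕ, ∀ (E : ℕ) (ε : ℝ), 0 < ε →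
    ∃ X₀ : ℕ, ∀ T : Fin 2 → Set ℕ, (∀ i, ∀ x : ℕ, 1 ≤ x → ∃ a ∈ T i, x ≤ a ∧ a ≤ l * x) → ∀ X : ℕ, X₀ ≤ X →
    ∀ z : ℕ, Real.log X ^ B₀ ≤ z → (z : ℝ) ≤ Real.log X ^ E → ∀ h : Fin 2 → ℤ, (∀ i, |h i| ≤ (B : ℤ) * X) →
    ∀ 𝒩 : Finset ℕ, (𝒩.card : ℝ) ≤ Real.log X ^ D → (∀ n ∈ 𝒩, p (p n) ≤ X) →
    ∀ K : ℕ → Finset ℕ, (∀ n ∈ 𝒩, ∀ k ∈ K n, 0 < k ∧ k < n) →
    ∃ S : Fin 2 → Finset ℕ, (∀ i, ∀ x ∈ S i, x ∈ T i ∧ Real.log X ^ H ≤ x ∧ (x : ℝ) ≤ X / Real.log X ^ H) ∧
      (∀ i, ((S i).card : ℝ) ≤ C * Real.log (Real.log X) ^ 2) ∧ (∀ i, P ∣ ∑ x ∈ S i, x) ∧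
      ∀ n ∈ 𝒩, ∀ h' : Fin 2 → ℤ, (∀ i, ((|h' i - (h i + ∑ x ∈ S i, (x : ℤ))| : ℤ) : ℝ) ≤ Real.log X ^ R) →
        Formula ε A X n z (K n) h' := by
  obtain ⟨C, h0⟩ := Pool.Agent.Q26.IX.ix_las_fam 2 l P R A D (by norm_num) hl hP
  refine ⟨C, fun H B => ?_⟩
  obtain ⟨B₀, h1⟩ := h0 H B
  refine ⟨B₀, fun E ε hε => ?_⟩
  obtain ⟨X₀, h2⟩ := h1 E ε hε
  refine ⟨X₀, fun T hT X hX z hz1 hz2 h hh 𝒩 h𝒩 hp K hK => ?_⟩
  obtain ⟨τ, hτ⟩ : ∃ τ : Finset (Fin 2 → ℕ), τ = 𝒩.image (fun n _ => n) := ⟨_, rfl⟩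
  have hτc : (τ.card : ℝ) ≤ Real.log X ^ D := by
    refine le_trans ?_ h𝒩
    rw [hτ]
    exact_mod_cast card_image_le
  have hτ0 : ∀ y ∈ τ, y 0 ∈ 𝒩 := by
    intro y hy
    rw [hτ, mem_image] at hy
    obtain ⟨n, hn, rfl⟩ := hy
    exact hn
  obtain ⟨S, g1, g2, g3, g4⟩ := h2 T hT X hX z hz1 hz2 h hh τ hτc (fun y => K (y 0)) (fun _ => 1)
    (fun y i k => if i = 0 then p k else p (p (y 0 - k))) (fun _ => Or.inl rfl) (by
      intro y hy i k hk
      obtain ⟨hk1, hk2⟩ := hK _ (hτ0 y hy) k hk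
      have hn := hp _ (hτ0 y hy)
      have e1 : p (y 0) ≤ p (p (y 0)) := Pool.Agent.Q26.IX.pp_le (Pool.Agent.Q26.IX.le_pp _)
      split_ifs
      · exact ⟨(Nat.prime_nth_prime _).one_le, (Pool.Agent.Q26.IX.pp_le hk2.le).trans (e1.trans hn)⟩
      · exact ⟨(Nat.prime_nth_prime _).one_le, (Pool.Agent.Q26.IX.pp_le (Pool.Agent.Q26.IX.pp_le (by omega))).trans hn⟩) (by
      intro y hy i k hk j hj hkl
      obtain ⟨hk1, hk2⟩ := hK _ (hτ0 y hy) k hk
      obtain ⟨hl1, hl2⟩ := hK _ (hτ0 y hy) j hj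
      dsimp only at hkl
      split_ifs at hkl
      · exact Pool.Agent.Q26.IX.pp_inj hk1 hl1 hkl
      · have e2 := Pool.Agent.Q26.IX.pp_inj (Nat.prime_nth_prime _).one_le (Nat.prime_nth_prime _).one_le hkl
        have e3 := Pool.Agent.Q26.IX.pp_inj (by omega) (by omega) e2
        omega)
  refine ⟨S, g1, g2, g3, fun n hn h' hh' => ?_⟩
  have h3 := g4 (fun _ => n) (by rw [hτ]; exact mem_image_of_mem _ hn) h' hh'
  have e1 : Pool.Agent.Q26.IX.prm (K n) (fun _ => 1) (fun (i : Fin 2) k => if i = 0 then p k else p (p (n - k))) h' = primes n (K n) h' := by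
    unfold Pool.Agent.Q26.IX.prm primes Pool.Agent.Q26.IX.IsP
    apply congrArg card
    ext k
    simp only [mem_filter, Fin.forall_fin_two]
    simp
  have e2 : Pool.Agent.Q26.IX.rgh (K n) z (fun _ => 1) (fun (i : Fin 2) k => if i = 0 then p k else p (p (n - k))) h' = rough n (K n) z h' := by
    unfold Pool.Agent.Q26.IX.rgh rough Pool.Agent.Q26.IX.IsR Rough
    apply congrArg card
    ext k
    simp only [mem_filter, Fin.forall_fin_two]
    simp
  rw [e1, e2] at h3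
  exact h3

end Pool.Agent.Results.MP_04e9b2_nt.CorrectedShifts
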