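import Pool.Agent.Q234.Sh
import Pool.Agent.H646.Cheb

/-!
# Every large `n` and all but few pairs of shifts: `p_k + h` and `p_{p_m} + h'` are almost primes

Q1 asks for every `n > 2` for a representation `n = k + m` such that `p_k + 2` and `p_{p_m} + 2` are primes. The two
shifts `2` are replaced here by all positive integers `h ≤ n`, `h' ≤ n` with few exceptions, and the primes by
numbers `u s`, where `s` is a prime or a product of two primes larger than `X ^ (1 / 7)`, and `u ≤ X ^ ε` for `p_k + h`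
(where `X = p_n`), while for `p_{p_m} + h'` all prime factors of `u` are smaller than `X ^ ε` (where `X = p_{p_n}`).

Let `n` be large and let `S` be ANY set of at least `δ n` integers `0 < k < n`. For all `h ≤ n` with at most `K`
exceptions, and then for all `h' ≤ n` with at most `K log n` exceptions, at least `κ n` elements `k` of `S` have both
properties, with `m = n - k`. Here `K` and `κ > 0` depend on `δ` and `ε` only.

This is an application of the theorems `Pool.Agent.W23.DC.dense_almost_prime` and `Pool.Agent.W23.SG.sparse_sets`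
of the starting files.
-/

set_option autoImplicit false

open Finset

namespace Pool.Agent.Results.MP_04e9b2_nt.FewExceptionalShifts

/-- The `k`-th prime: `p 1 = 2`, `p 2 = 3`. -/
noncomputable def p (k : ℕ) : ℕ := Nat.nth Nat.Prime (k - 1)

/-- `a = u s`, where `u ≤ X ^ ε` and `s > 1` has at most two prime factors (counted with multiplicity), all of them
larger than `X ^ (1 / 7)`. -/
def Almost1 (ε : ℝ) (X a : ℕ) : Prop :=
  ∃ u s : ℕ, a = u * s ∧ (u : ℝ) ≤ (X : ℝ) ^ ε ∧ 1 < s ∧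
    s.primeFactorsList.length ≤ 2 ∧ ∀ l ∈ s.primeFactors, (X : ℝ) ^ (1 / 7 : ℝ) < l

/-- `a = u s`, where all prime factors of `u` are smaller than `X ^ ε` and `s` has at most two prime factors (counted
with multiplicity), all of them larger than `X ^ (1 / 7)`. -/
def Almost2 (ε : ℝ) (X a : ℕ) : Prop :=
  ∃ u s : ℕ, a = u * s ∧ (∀ l : ℕ, l.Prime → l ∣ u → (l : ℝ) < (X : ℝ) ^ ε) ∧
    s.primeFactorsList.length ≤ 2 ∧ ∀ l ∈ s.primeFactors, (X : ℝ) ^ (1 / 7 : ℝ) < l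

open Classical in
/-- The `k` in `S` such that, with `m = n - k`, the numbers `p_k + h` and `p_{p_m} + h'` have these properties. -/
noncomputable def good (ε : ℝ) (n : ℕ) (S : Finset ℕ) (h h' : ℕ) : Finset ℕ :=
  S.filter (fun k => Almost1 ε (p n) (p k + h) ∧ Almost2 ε (p (p n)) (p (p (n - k)) + h'))

open Classical in
/-- The `h' ≤ n` for which fewer than `κ n` elements `k` of `S` have both properties. -/
noncomputable def bad' (ε κ : ℝ) (n : ℕ) (S : Finset ℕ) (h : ℕ) : Finset ℕ :=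
  (Icc 1 n).filter (fun h' => ((good ε n S h h').card : ℝ) < κ * n)

open Classical in
/-- The `h ≤ n` for which there are more than `K log n` such `h'`. -/
noncomputable def bad (ε κ : ℝ) (K n : ℕ) (S : Finset ℕ) : Finset ℕ :=
  (Icc 1 n).filter (fun h => (K : ℝ) * Real.log n < ((bad' ε κ n S h).card : ℝ))

theorem nth_inj : Function.Injective (Nat.nth Nat.Prime) := Nat.nth_injective Nat.infinite_setOfPred_prime

theorem p_mono {a b : ℕ} (h : a ≤ b) : p a ≤ p b :=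
  (Nat.nth_strictMono Nat.infinite_setOfPred_prime).monotone (by omega)

theorem le_p {n : ℕ} (hn : 1 ≤ n) : n ≤ p n := by
  have := Nat.add_two_le_nth_prime (n - 1)
  unfold p
  omega

/-- **Every large `n` and all but few pairs of shifts.** -/
theorem result : ∀ δ ε : ℝ, 0 < δ → 0 < ε → ∃ (κ : ℝ) (K : ℕ), 0 < κ ∧ ∃ n₀ : ℕ, ∀ n : ℕ, n₀ ≤ n →
    ∀ S : Finset ℕ, S ⊆ Ioo 0 n → δ * n ≤ S.card → (bad ε κ K n S).card ≤ K := by
  classical
  intro δ ε hδ hε
  obtain ⟨C₀, hC₀, hP⟩ := Pool.Agent.H646.ChebM.P_le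
  -- `p n ≤ 2 C₀ n log n`
  have hp1 : ∀ n : ℕ, 3 ≤ n → (p n : ℝ) ≤ C₀ * (n * Real.log n) := by
    intro n hn
    have h1 := hP (n - 1) (by omega)
    have h2 : (p n : ℝ) = (Pool.Agent.H646.P (n - 1) : ℝ) := rfl
    rw [h2]
    refine h1.trans ?_
    have h3 : ((n - 1 : ℕ) : ℝ) ≤ n := by exact_mod_cast Nat.sub_le n 1
    have h4 : (2 : ℝ) ≤ ((n - 1 : ℕ) : ℝ) := by exact_mod_cast (by omega : 2 ≤ n - 1)
    have h5 : Real.log ((n - 1 : ℕ) : ℝ) ≤ Real.log n := Real.log_le_log (by linarith) h3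
    have h6 : 0 ≤ Real.log ((n - 1 : ℕ) : ℝ) := Real.log_nonneg (by linarith)
    apply mul_le_mul_of_nonneg_left _ (by linarith)
    exact mul_le_mul h3 h5 h6 (by linarith)
  obtain ⟨κ₁, K₁, hκ₁, hdense⟩ := Pool.Agent.Q234.Sh.dense (δ / (2 * C₀)) ε (by positivity) hε
  obtain ⟨κ₂, C₂, η, hκ₂, hC₂, hη, hsets⟩ := Pool.Agent.Q234.Sh.sets ε hε
  -- eventually statements
  have tN : Filter.Tendsto (fun N : ℕ => (N : ℝ)) Filter.atTop Filter.atTop := tendsto_natCast_atTop_atTop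
  have tL : Filter.Tendsto (fun N : ℕ => Real.log (N : ℝ)) Filter.atTop Filter.atTop := Real.tendsto_log_atTop.comp tN
  have hlo1 := ((isLittleO_log_rpow_atTop (r := (1 / 2 : ℝ)) (by norm_num)).bound
    (show (0 : ℝ) < 1 / (4 * C₀ ^ 2) by positivity))
  have hlo2 := (isLittleO_log_rpow_rpow_atTop (2 : ℝ) (show (0 : ℝ) < η / 4 by positivity)).bound
    (show (0 : ℝ) < κ₁ * δ / (8 * C₀ ^ 2) by positivity)
  obtain ⟨n₀, hn₀⟩ := Filter.eventually_atTop.1 (((tN.eventually hlo1).and (tN.eventually hlo2)).and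
    ((tL.eventually_ge_atTop 4).and (Filter.eventually_ge_atTop 3)))
  obtain ⟨K₂, hK₂⟩ := exists_nat_ge (2 * C₀ ^ 2 * C₂ / (κ₁ * δ))
  refine ⟨κ₂ * (κ₁ * δ), max K₁ K₂, by positivity, n₀, fun n hn S hS hSδ => ?_⟩
  obtain ⟨⟨a1, a2⟩, a3, a4⟩ := hn₀ n hn
  obtain ⟨L, hL⟩ : ∃ L, L = Real.log n := ⟨_, rfl⟩
  rw [← hL] at a1 a2 a3
  have hnr : (3 : ℝ) ≤ n := by exact_mod_cast a4
  have hn0 : (0 : ℝ) < n := by linarith
  have hL0 : 0 < L := by linarith
  have hn1 : (1 : ℝ) ≤ n := by linarith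
  rw [Real.norm_eq_abs, Real.norm_eq_abs, abs_of_nonneg hL0.le, abs_of_nonneg (by positivity)] at a1
  have a2' : L ^ 2 ≤ κ₁ * δ / (8 * C₀ ^ 2) * (n : ℝ) ^ (η / 4) := by
    have e1 : ‖L ^ (2 : ℝ)‖ = L ^ 2 := by
      rw [Real.norm_eq_abs, abs_of_nonneg (by positivity)]
      exact_mod_cast Real.rpow_natCast L 2
    have e2 : ‖(n : ℝ) ^ (η / 4)‖ = (n : ℝ) ^ (η / 4) := by
      rw [Real.norm_eq_abs, abs_of_nonneg (by positivity)]
    rw [e1, e2] at a2
    exact a2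
  -- the two scales
  obtain ⟨X₁, hX₁⟩ : ∃ X₁, X₁ = p n := ⟨_, rfl⟩
  obtain ⟨X₂, hX₂⟩ : ∃ X₂, X₂ = p X₁ := ⟨_, rfl⟩
  have hnX₁ : n ≤ X₁ := by rw [hX₁]; exact le_p (by omega)
  have hX₁X₂ : X₁ ≤ X₂ := by rw [hX₂]; exact le_p (by omega)
  have hX₁r : (n : ℝ) ≤ X₁ := by exact_mod_cast hnX₁
  have hX₂r : (X₁ : ℝ) ≤ X₂ := by exact_mod_cast hX₁X₂
  have hX₁0 : (0 : ℝ) < X₁ := by linarith
  have hX₂0 : (0 : ℝ) < X₂ := by linarith
  have u1 : (X₁ : ℝ) ≤ C₀ * (n * L) := by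
    rw [hX₁, hL]
    exact hp1 n a4
  have hC₀0 : 0 < C₀ := by linarith
  have u2 : Real.log X₁ ≤ 2 * L := by
    have e1 : C₀ * L ≤ n := by
      have e2 : C₀ * L ≤ C₀ * (1 / (4 * C₀ ^ 2) * (n : ℝ) ^ (1 / 2 : ℝ)) := mul_le_mul_of_nonneg_left a1 hC₀0.le
      have e3 : C₀ * (1 / (4 * C₀ ^ 2) * (n : ℝ) ^ (1 / 2 : ℝ)) = 1 / (4 * C₀) * (n : ℝ) ^ (1 / 2 : ℝ) := by
        field_simp
      have e4 : 1 / (4 * C₀) ≤ 1 := by
        rw [div_le_one (by positivity)]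
        linarith
      have e5 : (n : ℝ) ^ (1 / 2 : ℝ) ≤ (n : ℝ) ^ (1 : ℝ) := Real.rpow_le_rpow_of_exponent_le hn1 (by norm_num)
      rw [Real.rpow_one] at e5
      have e6 : 0 ≤ (n : ℝ) ^ (1 / 2 : ℝ) := by positivity
      rw [e3] at e2
      calc C₀ * L ≤ 1 / (4 * C₀) * (n : ℝ) ^ (1 / 2 : ℝ) := e2
        _ ≤ 1 * (n : ℝ) ^ (1 / 2 : ℝ) := mul_le_mul_of_nonneg_right e4 e6
        _ ≤ n := by linarith
    have e2 : (X₁ : ℝ) ≤ (n : ℝ) ^ 2 := by
      calc (X₁ : ℝ) ≤ C₀ * (n * L) := u1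
        _ = (C₀ * L) * n := by ring
        _ ≤ n * n := mul_le_mul_of_nonneg_right e1 hn0.le
        _ = _ := by ring
    have e3 := Real.log_le_log hX₁0 e2
    rw [Real.log_pow, ← hL] at e3
    exact_mod_cast e3
  have u3 : L ≤ Real.log X₁ := by rw [hL]; exact Real.log_le_log hn0 hX₁r
  have u4 : L ≤ Real.log X₂ := by rw [hL]; exact Real.log_le_log hn0 (hX₁r.trans hX₂r)
  have u5 : (X₂ : ℝ) ≤ 2 * C₀ ^ 2 * (n * L ^ 2) := by
    have e1 := hp1 X₁ (by omega)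
    rw [← hX₂] at e1
    calc (X₂ : ℝ) ≤ C₀ * (X₁ * Real.log X₁) := e1
      _ ≤ C₀ * ((C₀ * (n * L)) * (2 * L)) := by
          apply mul_le_mul_of_nonneg_left _ hC₀0.le
          exact mul_le_mul u1 u2 (by linarith) (by positivity)
      _ = _ := by ring
  have hScard0 : (0 : ℝ) ≤ S.card := Nat.cast_nonneg _
  -- the first shift
  have h1 := hdense p X₁ (by omega) S (fun k hk => by
    have := mem_Ioo.1 (hS hk)
    exact ⟨Nat.prime_nth_prime _, by rw [hX₁]; exact p_mono this.2.le⟩) (by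
    intro a ha b hb hab
    have e1 := mem_Ioo.1 (hS (mem_coe.1 ha))
    have e2 := mem_Ioo.1 (hS (mem_coe.1 hb))
    have e3 := nth_inj hab
    omega) (by
    refine le_trans ?_ hSδ
    have e1 : (X₁ : ℝ) / Real.log X₁ ≤ C₀ * n := by
      rw [div_le_iff₀ (by linarith)]
      calc (X₁ : ℝ) ≤ C₀ * (n * L) := u1
        _ = C₀ * n * L := by ring
        _ ≤ C₀ * n * Real.log X₁ := mul_le_mul_of_nonneg_left u3 (by positivity)
    calc δ / (2 * C₀) * X₁ / Real.log X₁ = δ / (2 * C₀) * (X₁ / Real.log X₁) := by ring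
      _ ≤ δ / (2 * C₀) * (C₀ * n) := mul_le_mul_of_nonneg_left e1 (by positivity)
      _ = δ * n / 2 := by field_simp
      _ ≤ δ * n := by
          have : 0 ≤ δ * n := by positivity
          linarith)
  refine le_trans (card_le_card ?_) (h1.trans (le_max_left _ _))
  intro h hh
  unfold bad at hh
  rw [mem_filter, mem_Icc] at hh
  obtain ⟨⟨hh1, hh2⟩, hh3⟩ := hh
  rw [mem_filter, mem_Icc]
  refine ⟨⟨Nat.zero_le _, by omega⟩, ?_⟩
  by_contra hcon
  push Not at hcon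
  obtain ⟨S₁, hS₁⟩ : ∃ S₁, S₁ = S.filter (fun x => Pool.Agent.Q234.Sh.RepD ε X₁ (p x) h) := ⟨_, rfl⟩
  rw [← hS₁] at hcon
  have hsub : S₁ ⊆ S := by rw [hS₁]; exact filter_subset _ _
  have hS₁c : κ₁ * δ * n ≤ S₁.card := by
    calc κ₁ * δ * n = κ₁ * (δ * n) := by ring
      _ ≤ κ₁ * S.card := mul_le_mul_of_nonneg_left hSδ hκ₁.le
      _ ≤ _ := hcon
  have hS₁0 : 0 < κ₁ * δ * n := by positivity
  -- the second shift
  have h2 := hsets (fun k => p (p (n - k))) X₂ (by omega) S₁ (fun k hk => by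
    have e0 := mem_Ioo.1 (hS (hsub hk))
    refine ⟨Nat.prime_nth_prime _, ?_⟩
    rw [hX₂, hX₁]
    exact p_mono (p_mono (by omega))) (by
    intro a ha b hb hab
    have e1 := mem_Ioo.1 (hS (hsub (mem_coe.1 ha)))
    have e2 := mem_Ioo.1 (hS (hsub (mem_coe.1 hb)))
    have f1 := nth_inj hab
    have f2 : 2 ≤ p (n - a) := (Nat.prime_nth_prime _).two_le
    have f3 : 2 ≤ p (n - b) := (Nat.prime_nth_prime _).two_le
    have f4 : p (n - a) = p (n - b) := by omega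
    have f5 := nth_inj f4
    omega) (by
    refine le_trans ?_ hS₁c
    have e1 : (X₂ : ℝ) ^ (1 - η) = X₂ * (X₂ : ℝ) ^ (-η) := by
      rw [sub_eq_add_neg, Real.rpow_add hX₂0, Real.rpow_one]
    have e2 : (X₂ : ℝ) ^ (-η) ≤ (n : ℝ) ^ (-η) :=
      Real.rpow_le_rpow_of_nonpos hn0 (hX₁r.trans hX₂r) (by linarith)
    have e3 : (n : ℝ) ^ (η / 4) ≤ (n : ℝ) ^ η := Real.rpow_le_rpow_of_exponent_le hn1 (by linarith)
    have e4 : (n : ℝ) ^ η * (n : ℝ) ^ (-η) = 1 := by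
      rw [← Real.rpow_add hn0]
      simp
    have e5 : 0 ≤ (n : ℝ) ^ (-η) := by positivity
    rw [e1]
    calc (X₂ : ℝ) * (X₂ : ℝ) ^ (-η) ≤ (2 * C₀ ^ 2 * (n * L ^ 2)) * (n : ℝ) ^ (-η) :=
          mul_le_mul u5 e2 (by positivity) (by positivity)
      _ = (2 * C₀ ^ 2 * n * (n : ℝ) ^ (-η)) * L ^ 2 := by ring
      _ ≤ (2 * C₀ ^ 2 * n * (n : ℝ) ^ (-η)) * (κ₁ * δ / (8 * C₀ ^ 2) * (n : ℝ) ^ η) := by
          apply mul_le_mul_of_nonneg_left _ (by positivity)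
          exact a2'.trans (mul_le_mul_of_nonneg_left e3 (by positivity))
      _ = κ₁ * δ * n / 4 * ((n : ℝ) ^ η * (n : ℝ) ^ (-η)) := by
          field_simp
          ring
      _ = κ₁ * δ * n / 4 := by rw [e4, mul_one]
      _ ≤ κ₁ * δ * n := by linarith)
  have h3 : ((bad' ε (κ₂ * (κ₁ * δ)) n S h).card : ℝ) ≤ C₂ * (X₂ / (S₁.card * Real.log X₂)) := by
    refine le_trans ?_ h2
    apply Nat.cast_le.2
    apply card_le_card
    intro h' hh'
    unfold bad' at hh'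
    rw [mem_filter, mem_Icc] at hh'
    rw [mem_filter, mem_Icc]
    refine ⟨⟨Nat.zero_le _, by omega⟩, ?_⟩
    have f1 : S₁.filter (fun x => Pool.Agent.Q234.Sh.RepS ε X₂ (p (p (n - x))) h') = good ε n S h h' := by
      rw [hS₁, filter_filter]
      unfold good
      apply filter_congr
      intro x _
      rw [hX₂, hX₁]
      exact Iff.rfl
    rw [f1]
    refine lt_of_lt_of_le hh'.2 ?_
    calc κ₂ * (κ₁ * δ) * n = κ₂ * (κ₁ * δ * n) := by ring
      _ ≤ κ₂ * S₁.card := mul_le_mul_of_nonneg_left hS₁c hκ₂.le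
  have h4 : C₂ * (X₂ / (S₁.card * Real.log X₂)) ≤ 2 * C₀ ^ 2 * C₂ / (κ₁ * δ) * L := by
    have f1 : (X₂ : ℝ) / (S₁.card * Real.log X₂) ≤ (2 * C₀ ^ 2 * (n * L ^ 2)) / (κ₁ * δ * n * L) := by
      apply div_le_div₀ (by positivity) u5 (by positivity)
      exact mul_le_mul hS₁c u4 hL0.le (hS₁0.le.trans hS₁c)
    calc C₂ * (X₂ / (S₁.card * Real.log X₂)) ≤ C₂ * ((2 * C₀ ^ 2 * (n * L ^ 2)) / (κ₁ * δ * n * L)) :=
          mul_le_mul_of_nonneg_left f1 hC₂.le
      _ = _ := by field_simp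
  have h5 : 2 * C₀ ^ 2 * C₂ / (κ₁ * δ) * L ≤ ((max K₁ K₂ : ℕ) : ℝ) * L := by
    apply mul_le_mul_of_nonneg_right _ hL0.le
    refine hK₂.trans ?_
    exact_mod_cast le_max_right _ _
  rw [← hL] at hh3
  have h6 := h3.trans (h4.trans h5)
  exact absurd hh3 (not_lt.2 h6)

end Pool.Agent.Results.MP_04e9b2_nt.FewExceptionalShifts
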