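import Pool.Agent.Q26.IX.K

/-!
# Twin prime indices and prime-indexed twin prime indices: shifts near palindromes and near elements of automatic sets

In the question one looks for `n = k + m` with `p_k + 2` and `p_{p_m} + 2` prime. Here the two shifts `2` are replaced by integers
`h 0`, `h 1` in windows of radius `log ^ R X` around `c i + κ i * v i`, where `v 0`, `v 1` are elements of two structured sets
(palindromes with a given number of digits, or an automatic set). For EVERY set `K` of summands `k`, almost all pairs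
`(v 0, v 1)` and ALL pairs of shifts in the windows we determine the number of the `k` in `K` for which both numbers are
prime.

Definitions from `Pool.Agent.Q26.IX.K`: `Kind`, `Kind.IsSet` (structured sets at the scale `X`), `pal`, `aut`.
-/

set_option autoImplicit false

namespace Pool.Agent.Results.MP_04e9b2_nt.StructuredShifts

open Finset
open Pool.Agent.Q26.IX (Kind)

/-- `p k` is the `k`-th prime, `p 1 = 2`. -/
noncomputable def p (k : ℕ) : ℕ := Nat.nth Nat.Prime (k - 1)

open Classical in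
/-- The number of the `k` in `K` for which `p_k + h 0` and `p_{p_{n - k}} + h 1` are both prime. -/
noncomputable def primes (n : ℕ) (K : Finset ℕ) (h : Fin 2 → ℤ) : ℕ :=
  (K.filter fun k => (∃ q : ℕ, q.Prime ∧ (q : ℤ) = p k + h 0) ∧ ∃ q : ℕ, q.Prime ∧ (q : ℤ) = p (p (n - k)) + h 1).card

/-- The integer `x` is positive and has no prime factor up to `z`. -/
def Rough (z : ℕ) (x : ℤ) : Prop := 1 ≤ x ∧ ∀ q : ℕ, q.Prime → q ≤ z → ¬ (q : ℤ) ∣ x

open Classical in
/-- The number of the `k` in `K` for which `p_k + h 0` and `p_{p_{n - k}} + h 1` are both positive without prime factor up to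
`z`. -/
noncomputable def rough (n : ℕ) (K : Finset ℕ) (z : ℕ) (h : Fin 2 → ℤ) : ℕ :=
  (K.filter fun k => Rough z (p k + h 0) ∧ Rough z (p (p (n - k)) + h 1)).card

/-- `V(z) = ∏_{q ≤ z} (1 - 1 / q)` -/
noncomputable def V (z : ℕ) : ℝ := ∏ q ∈ (Icc 1 z).filter Nat.Prime, (1 - 1 / (q : ℝ))

/-- The number of the `k` in `K` with two primes is `T = rough / (V(z) log X) ^ 2` up to `ε T + X / log ^ A X`. -/
def Formula (ε : ℝ) (A X n z : ℕ) (K : Finset ℕ) (h : Fin 2 → ℤ) : Prop :=
  |(primes n K h : ℝ) - rough n K z h / (V z * Real.log X) ^ 2| ≤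
    ε * (rough n K z h / (V z * Real.log X) ^ 2) + X / Real.log X ^ A

open Classical in
/-- **Both conditions, for all shifts near almost all elements of structured sets.** Let two kinds of structured sets, integers
`κ i ≠ 0`, and `B ≥ 1`, `R`, `A`, `U` be given. There is `B₀` such that for all `E` and `ε > 0`, all large `X`, all `z` between
`log ^ B₀ X` and `log ^ E X`, all sets `S 0`, `S 1` of these kinds at the scale `X` and all integers `c 0`, `c 1` with
`|c i| ≤ B X` the following holds. Let `n` satisfy `p_{p_n} ≤ X`, and let `K` be an ARBITRARY set of integers `0 < k < n`.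
Then for all pairs `(v 0, v 1)` in `S 0 × S 1`, with the exception of at most a proportion `1 / log ^ U X` of them, ALL integers
`h 0`, `h 1` with `|h i - (c i + κ i v i)| ≤ log ^ R X` satisfy the formula for the number of the `k` in `K` such that
`p_k + h 0` and `p_{p_m} + h 1` are prime, `m = n - k`. -/
theorem result (kd : Fin 2 → Kind) (κ : Fin 2 → ℤ) (hκ : ∀ i, κ i ≠ 0) (B R A U : ℕ) (hB : 1 ≤ B) :
    ∃ B₀ : ℕ, ∀ (E : ℕ) (ε : ℝ), 0 < ε → ∃ X₀ : ℕ, ∀ X, X₀ ≤ X → ∀ z : ℕ, Real.log X ^ B₀ ≤ z → (z : ℝ) ≤ Real.log X ^ E →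
      ∀ S : Fin 2 → Finset ℕ, (∀ i, (kd i).IsSet B X (S i)) → ∀ c : Fin 2 → ℤ, (∀ i, |c i| ≤ (B : ℤ) * X) →
      ∀ n : ℕ, p (p n) ≤ X → ∀ K : Finset ℕ, (∀ k ∈ K, 0 < k ∧ k < n) →
      (((Fintype.piFinset S).filter fun v => ¬ ∀ h : Fin 2 → ℤ,
         (∀ i, ((|h i - (c i + κ i * (v i : ℤ))| : ℤ) : ℝ) ≤ Real.log X ^ R) → Formula ε A X n z K h).card : ℝ) ≤
      ((Fintype.piFinset S).card : ℝ) / Real.log X ^ U := by
  obtain ⟨B₀, h0⟩ := Pool.Agent.Q26.IX.ix_kinds 2 (by norm_num) κ hκ kd B R A U hB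
  refine ⟨B₀, fun E ε hε => ?_⟩
  obtain ⟨X₀, h1⟩ := h0 E ε hε
  refine ⟨X₀, fun X hX z hz1 hz2 S hS c hc n hn K hK => ?_⟩
  have h2 := h1 X hX z hz1 hz2 S hS c hc K (fun _ => 1) (fun i k => if i = 0 then p k else p (p (n - k))) (fun _ => Or.inl rfl)
    (by
      intro i k hk
      obtain ⟨hk1, hk2⟩ := hK k hk
      have e1 : p n ≤ p (p n) := Pool.Agent.Q26.IX.pp_le (Pool.Agent.Q26.IX.le_pp n)
      split_ifs
      · exact ⟨(Nat.prime_nth_prime _).one_le, (Pool.Agent.Q26.IX.pp_le hk2.le).trans (e1.trans hn)⟩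
      · exact ⟨(Nat.prime_nth_prime _).one_le, (Pool.Agent.Q26.IX.pp_le (Pool.Agent.Q26.IX.pp_le (by omega))).trans hn⟩)
    (by
      intro i k hk l hl hkl
      obtain ⟨hk1, hk2⟩ := hK k hk
      obtain ⟨hl1, hl2⟩ := hK l hl
      dsimp only at hkl
      split_ifs at hkl
      · exact Pool.Agent.Q26.IX.pp_inj hk1 hl1 hkl
      · have e2 := Pool.Agent.Q26.IX.pp_inj (Nat.prime_nth_prime _).one_le (Nat.prime_nth_prime _).one_le hkl
        have e3 := Pool.Agent.Q26.IX.pp_inj (by omega) (by omega) e2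
        omega)
  refine le_trans ?_ h2
  apply Nat.cast_le.2
  apply card_le_card
  intro v hv
  rw [mem_filter] at hv ⊢
  refine ⟨hv.1, fun hall => hv.2 fun h hh => ?_⟩
  have h3 := hall h hh
  have e1 : Pool.Agent.Q26.IX.prm K (fun _ => 1) (fun (i : Fin 2) k => if i = 0 then p k else p (p (n - k))) h = primes n K h := by
    unfold Pool.Agent.Q26.IX.prm primes Pool.Agent.Q26.IX.IsP
    apply congrArg card
    ext k
    simp only [mem_filter, Fin.forall_fin_two]
    simp
  have e2 : Pool.Agent.Q26.IX.rgh K z (fun _ => 1) (fun (i : Fin 2) k => if i = 0 then p k else p (p (n - k))) h = rough n K z h := by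
    unfold Pool.Agent.Q26.IX.rgh rough Pool.Agent.Q26.IX.IsR Rough
    apply congrArg card
    ext k
    simp only [mem_filter, Fin.forall_fin_two]
    simp
  rw [e1, e2] at h3
  exact h3

end Pool.Agent.Results.MP_04e9b2_nt.StructuredShifts
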